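import Pool.Agent.Helper290.Liou.Main

set_option autoImplicit false

/-!
# MP_162786_an: the Liouville measure need not be an equilibrium state

The surface is `U = ℂ ∖ 2πℤ²` with the metric `|dz|² / (F L² S²)`, where
`F = 7 - 3 cos x - 3 cos y - cos x cos y`, `L = 7 - log F`, `S = √N log N`, `N = 10000 + |z|²`.
It is complete, has finite area, and `S² ≤ -K ≤ 150 S²`. Along every geodesic `S` changes by a
factor at most `2` during the time `1/S`, so the unstable Riccati solution at a unit vector over `z`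
lies between `S(z)/8` and `601 S(z)`, and `-φ^u ≥ S/1202`; but the integral of `S` with respect to
the area is infinite.
-/

open Set MeasureTheory
open scoped ContDiff

namespace Pool.Agent.Results.MP_162786_an.LiouvilleNotEquilibrium

open Pool.Agent.Helper290.Liou

/-- There is a complete connected Riemannian surface `(U, e^{2φ} (dx² + dy²))` of finite area, with
curvature at most `-1` and unbounded below, such that the geometric potential `ψ = φ^u` of its
geodesic flow `Φ` is nonpositive and has integral `-∞` with respect to the Liouville probability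
measure, for the Sasaki norm (`ψ`) and for the norm of the projection to the surface (`ψ'`). -/
theorem result : ∃ (U : Set ℂ) (φ : ℂ → ℝ) (Φ : ℝ → ℂ × ℝ → ℂ × ℝ) (ψ ψ' : ℂ × ℝ → ℝ),
    IsOpen U ∧ IsConnected U ∧ ContDiffOn ℝ ∞ φ U ∧ CompleteMetric U φ ∧
    areaM U φ univ < ⊤ ∧ (∀ z ∈ U, curv φ z ≤ -1) ∧ (∀ R : ℝ, ∃ z ∈ U, curv φ z < -R) ∧
    IsGeodesicFlow U φ Φ ∧ IsProbabilityMeasure (liouville U φ) ∧
    IsGeomPotential (sasaki φ) U φ Φ ψ ∧ IsGeomPotential (footNorm φ) U φ Φ ψ' ∧
    (∀ p : ℂ × ℝ, p.1 ∈ U → ψ p ≤ 0 ∧ ψ' p ≤ 0) ∧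
    ∫⁻ p, ENNReal.ofReal (-ψ p) ∂(liouville U φ) = ⊤ ∧
    ∫⁻ p, ENNReal.ofReal (-ψ' p) ∂(liouville U φ) = ⊤ :=
  main_thm

end Pool.Agent.Results.MP_162786_an.LiouvilleNotEquilibrium
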